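import Pool.Agent.Helper82_NIB.Stmts

/-! helper17: module CPHH of squad NIB (MP_0a041d_co). -/

set_option autoImplicit false

open Finset Matrix

namespace Pool.Agent.NIB.H17

theorem cphh (hCidn : CidnStmt) : CphhStmt := by
  intro V _ _ D hD
  obtain ⟨c1, -, -, -⟩ := hCidn V D hD
  have hth0 := hD.th0
  have hth1 := hD.th1
  have hpos : 0 < 1 - D.th := by linarith
  have hinv : ∀ (g : V × Bool → ℝ) (B : ℝ), 0 ≤ B →
      |dev D.th D.xo D.sg (grad (mat D.x *ᵥ g))| ≤ B → |g ⬝ᵥ D.et| ≤ 101 / 100 * B := by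
    intro g B hB h
    rw [c1 g, abs_neg, abs_div, abs_of_pos hpos, div_le_iff₀ hpos]
    nlinarith
  refine ⟨fun w => ?_, fun w => ?_, fun w => ?_, fun w w' hw => ?_⟩
  · have h1 : mu (mat D.x) D.gh w ⬝ᵥ D.et =
        D.phh w - ∑ w', mat D.x w w' * D.phh w' - D.et w := by
      have h2 : ∑ w', mat D.x w w' * D.phh w' =
          ∑ z, (∑ w', mat D.x w w' * D.gh w' z) * D.et z := by
        simp only [Cd.phh, dotProduct, Finset.mul_sum, Finset.sum_mul]
        rw [Finset.sum_comm]
        exact Finset.sum_congr rfl fun z _ => Finset.sum_congr rfl fun w' _ => by ring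
      have h3 : D.et w = ∑ z, dl w z * D.et z := by
        simp [dl, Pi.single_apply]
      rw [h2, h3]
      simp only [Cd.phh, dotProduct, mu]
      rw [← Finset.sum_sub_distrib, ← Finset.sum_sub_distrib]
      exact Finset.sum_congr rfl fun z _ => by ring
    have h4 : ∑ w', mat D.x w w' * Gf D.th D.sg w' * (D.phh w - D.phh w') =
        D.Th w + ∑ w', mat D.x w w' * (D.phh w - D.phh w') := by
      rw [Cd.Th, ← Finset.sum_add_distrib]
      exact Finset.sum_congr rfl fun w' _ => by ring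
    have h5 : ∑ w', mat D.x w w' * (D.phh w - D.phh w') =
        rs D.x w * D.phh w - ∑ w', mat D.x w w' * D.phh w' := by
      rw [rs, Finset.sum_mul, ← Finset.sum_sub_distrib]
      exact Finset.sum_congr rfl fun w' _ => by ring
    rw [h4, h5, h1]
    ring
  · exact hinv _ _ hD.Phi0 (hD.k2 w)
  · exact hinv _ _ hD.B10 (hD.k1 w)
  · have h1 : D.phh w - D.phh w' = (D.gh w - D.gh w') ⬝ᵥ D.et := by
      rw [sub_dotProduct]
      rfl
    rw [h1]
    refine hinv _ _ ?_ (hD.k3 w w' hw)
    exact mul_nonneg hD.el0 (add_nonneg (Real.sqrt_nonneg _) hD.kb0)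

end Pool.Agent.NIB.H17
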