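import Pool.Agent.Helper82_NIB.Stmts

/-! helper17: module EGR of squad NIB (MP_0a041d_co). -/

set_option autoImplicit false

open Finset Matrix

namespace Pool.Agent.NIB.H17

section

variable {W : Type} [Fintype W] [DecidableEq W]

/-- The polynomial of the lazy walk. -/
noncomputable def pu : Polynomial ℝ := Polynomial.C (1 / 2) * (1 + Polynomial.X)

/-- The polynomial of the Green function. -/
noncomputable def pg (ta : ℕ) : Polynomial ℝ :=
  Polynomial.C (1 / 2) * ∑ j ∈ range ta, pu ^ j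

lemma aeval_pu (A : Matrix W W ℝ) : Polynomial.aeval A pu = laz A := by
  rw [pu, map_mul, Polynomial.aeval_C, ← Algebra.smul_def, map_add, map_one, Polynomial.aeval_X,
    laz]

lemma aeval_pg (A : Matrix W W ℝ) (ta : ℕ) : Polynomial.aeval A (pg ta) = grn A ta := by
  rw [pg, map_mul, Polynomial.aeval_C, ← Algebra.smul_def, map_sum, grn]
  congr 1
  exact Finset.sum_congr rfl fun j _ => by rw [map_pow, aeval_pu]

lemma grn_transpose {A : Matrix W W ℝ} (hA : ∀ a b, A a b = A b a) (ta : ℕ) :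
    (grn A ta)ᵀ = grn A ta := by
  rw [grn, Matrix.transpose_smul, Matrix.transpose_sum]
  congr 1
  exact Finset.sum_congr rfl fun j _ => by rw [Matrix.transpose_pow, laz_symm hA]

lemma dot_mulVec_left (G : Matrix W W ℝ) (y z : W → ℝ) :
    (G *ᵥ y) ⬝ᵥ z = y ⬝ᵥ (Gᵀ *ᵥ z) := by
  rw [dotProduct_comm, Matrix.dotProduct_mulVec, dotProduct_comm, Matrix.mulVec_transpose]

lemma eval_pu (t : ℝ) : pu.eval t = (1 + t) / 2 := by
  simp [pu]
  ring

end

theorem egr (hSpec : SpecStmt) (hEng : EngStmt) : EgrStmt := by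
  intro W _ _ A de ta hA hde hta w
  obtain ⟨-, e2, -, -, -, -, e7⟩ := hEng W A hA
  set y : W → ℝ := A *ᵥ dl w with hy
  set G := grn A ta with hG
  have hcomm : A * G = G * A := by
    have h1 : A = Polynomial.aeval A (Polynomial.X : Polynomial ℝ) := (Polynomial.aeval_X A).symm
    rw [hG, ← aeval_pg]
    nth_rewrite 1 [h1]
    nth_rewrite 4 [h1]
    rw [← map_mul, ← map_mul, mul_comm]
  have hf : A *ᵥ (G *ᵥ dl w) = G *ᵥ y := by
    rw [hy, Matrix.mulVec_mulVec, Matrix.mulVec_mulVec, hcomm]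
  rw [hf]
  have h5 := e7 w de hde
  rw [← hy] at h5
  clear_value y
  refine (e2 _).trans ?_
  have h1 : (G *ᵥ y) ⬝ᵥ (G *ᵥ y - A *ᵥ (G *ᵥ y)) =
      y ⬝ᵥ (Polynomial.aeval A (pg ta * (1 - pu ^ ta)) *ᵥ y) := by
    have h2 : G *ᵥ y - A *ᵥ (G *ᵥ y) = ((1 - A) * G) *ᵥ y := by
      rw [Matrix.sub_mul, Matrix.one_mul, Matrix.sub_mulVec, Matrix.mulVec_mulVec]
    rw [h2, hG, one_sub_mul_grn, dot_mulVec_left, grn_transpose hA.symm, Matrix.mulVec_mulVec,
      map_mul, map_sub, map_one, map_pow, aeval_pu, aeval_pg]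
  rw [h1]
  have h3 : ∀ t : ℝ, -1 ≤ t → t ≤ 1 → (pg ta * (1 - pu ^ ta)).eval t ≤ (ta : ℝ) / 2 := by
    intro t ht1 ht2
    have hu0 : 0 ≤ (1 + t) / 2 := by linarith
    have hu1 : (1 + t) / 2 ≤ 1 := by linarith
    rw [Polynomial.eval_mul, Polynomial.eval_sub, Polynomial.eval_one, Polynomial.eval_pow,
      eval_pu, pg, Polynomial.eval_mul, Polynomial.eval_C, Polynomial.eval_finsetSum]
    simp only [Polynomial.eval_pow, eval_pu]
    set u : ℝ := (1 + t) / 2 with hu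
    have hs : ∑ j ∈ range ta, u ^ j ≤ ta := by
      have h := Finset.sum_le_card_nsmul (range ta) (fun j => u ^ j) 1
        (fun j _ => pow_le_one₀ hu0 hu1)
      simpa using h
    have hs0 : 0 ≤ ∑ j ∈ range ta, u ^ j := Finset.sum_nonneg fun j _ => pow_nonneg hu0 j
    have hp0 : 0 ≤ u ^ ta := pow_nonneg hu0 ta
    have h4 : 1 / 2 * (∑ j ∈ range ta, u ^ j) * (1 - u ^ ta) ≤
        1 / 2 * (∑ j ∈ range ta, u ^ j) * 1 :=
      mul_le_mul_of_nonneg_left (by linarith) (by positivity)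
    linarith
  refine (hSpec W A hA _ _ h3 y).trans ?_
  have h6 : (0 : ℝ) ≤ (ta : ℝ) / 2 := by positivity
  calc (ta : ℝ) / 2 * nsq y ≤ (ta : ℝ) / 2 * de := mul_le_mul_of_nonneg_left h5 h6
    _ = de * ta / 2 := by ring

end Pool.Agent.NIB.H17
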