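import Pool.Agent.Helper82_NIB.Stmts

/-! helper17: module NBOK of squad NIB (MP_0a041d_co). -/

set_option autoImplicit false

open Finset Matrix

namespace Pool.Agent.NIB.H17

theorem nbok (hNstep : NstepStmt) (hNlll : NlllStmt) : NbokStmt := by
  obtain ⟨N1, hN1⟩ := hNstep
  obtain ⟨N2, hN2⟩ := hNlll
  refine ⟨max (max N1 N2) 3200, fun N hN kap hkap D de r h hR => ?_⟩
  obtain ⟨s1, s2, s3, s4, s5, -, -⟩ :=
    hN1 N ((le_max_left _ _).trans ((le_max_left _ _).trans hN)) D de r h hR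
  obtain ⟨l1, l2⟩ := hN2 N ((le_max_right _ _).trans ((le_max_left _ _).trans hN)) kap hkap
  have hNn : 3200 ≤ N := (le_max_right _ _).trans hN
  have hNr : (3200 : ℝ) ≤ N := by exact_mod_cast hNn
  have hN1' : (1 : ℝ) ≤ N := by linarith
  have hN0 : (0 : ℝ) < N := by linarith
  have hpow : ∀ k : ℕ, 1 ≤ k → (3200 : ℝ) ≤ (N : ℝ) ^ k := fun k hk =>
    hNr.trans (le_self_pow₀ hN1' (by omega))
  have hone : ∀ k : ℕ, (1 : ℝ) ≤ (N : ℝ) ^ k := fun k => one_le_pow₀ hN1'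
  constructor
  · show 0 < 1 / (N : ℝ) ^ 60
    positivity
  · show 1 / (N : ℝ) ^ 60 ≤ 1 / 200
    exact one_div_le_one_div_of_le (by norm_num) ((by norm_num : (200 : ℝ) ≤ 3200).trans
      (hpow 60 (by norm_num)))
  · exact hR.de0
  · exact hR.r0
  · exact s1
  · show 4 / (N : ℝ) ^ 165 = 4 * ((N ^ 80 : ℕ) : ℝ) * (N : ℝ) ^ 85 / ((N ^ 330 : ℕ) : ℝ)
    push_cast
    rw [div_eq_div_iff (by positivity) (by positivity)]
    ring
  · show 12 * (4 / (N : ℝ) ^ 165) ≤ 1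
    have := hpow 165 (by norm_num)
    rw [← mul_div_assoc, div_le_one (by positivity)]
    linarith
  · show 1 ≤ N ^ 80
    exact Nat.one_le_pow _ _ (by omega)
  · show (1 : ℝ) ≤ (N : ℝ) ^ 2
    exact hone 2
  · exact hone 85
  · push_cast
    have h1 : (N : ℝ) ^ 330 = (N : ℝ) ^ 245 * (N : ℝ) ^ 85 := by ring
    rw [h1]
    have h2 := hpow 245 (by norm_num)
    have h3 : (0 : ℝ) < (N : ℝ) ^ 85 := by positivity
    nlinarith
  · have h1 := hR.h0
    have h2 := hpow 74 (by norm_num)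
    linarith
  · exact hR.hde
  · show 800 * (1 / (N : ℝ) ^ 60) * (4 / (N : ℝ) ^ 160) ≤ 1
    have h1 := hpow 60 (by norm_num)
    have h2 := hone 160
    have h3 : 800 * (1 / (N : ℝ) ^ 60) * (4 / (N : ℝ) ^ 160) =
        3200 / ((N : ℝ) ^ 60 * (N : ℝ) ^ 160) := by
      field_simp
      norm_num
    rw [h3, div_le_one (by positivity)]
    nlinarith
  · exact s2
  · exact s3
  · exact s4
  · exact s5
  · exact l1
  · exact l2

end Pool.Agent.NIB.H17
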