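import Pool.Agent.Helper82_NIB.Stmts

/-! helper17: row sums as sums over arcs (squad NIB, MP_0a041d_co). -/

set_option autoImplicit false

open Finset Matrix

namespace Pool.Agent.NIB.H17

variable {V : Type} [Fintype V] [DecidableEq V]

lemma rs_eq_sum (x : V → V → ℝ) (w : V × Bool) :
    rs x w = ∑ u, ∑ v, plu (dl w) u v * x u v := by
  have h := dev_plu 0 x x (dl w)
  unfold dev at h
  simp only [zero_mul, sub_zero] at h
  rw [h]
  simp [dl, Pi.single_apply]

lemma plu_dl_cases (w : V × Bool) (u v : V) : plu (dl w) u v = 0 ∨ plu (dl w) u v = 1 := by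
  rcases w with ⟨w, _ | _⟩
  · by_cases h : v = w
    · right; simp [plu, dl, Pi.single_apply, h]
    · left; simp [plu, dl, Pi.single_apply, h]
  · by_cases h : u = w
    · right; simp [plu, dl, Pi.single_apply, h]
    · left; simp [plu, dl, Pi.single_apply, h]

lemma plu_dl_abs (w : V × Bool) (u v : V) : |plu (dl w) u v| ≤ 1 := by
  rcases plu_dl_cases w u v with h | h <;> rw [h] <;> simp

lemma plu_dl_sq (w : V × Bool) (u v : V) : plu (dl w) u v ^ 2 = plu (dl w) u v := by
  rcases plu_dl_cases w u v with h | h <;> rw [h] <;> simp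

lemma plu_dl_nonneg (w : V × Bool) (u v : V) : 0 ≤ plu (dl w) u v := by
  rcases plu_dl_cases w u v with h | h <;> rw [h] <;> simp

lemma Qf_plu_dl (x : V → V → ℝ) (w : V × Bool) : Qf x (plu (dl w)) = rs x w := by
  rw [rs_eq_sum, Qf]
  refine Finset.sum_congr rfl fun u _ => Finset.sum_congr rfl fun v _ => ?_
  rw [plu_dl_sq, mul_comm]

lemma dev_plu_dl (th : ℝ) (xo sg : V → V → ℝ) (w : V × Bool) :
    dev th xo sg (plu (dl w)) = rs sg w - th * rs xo w := by
  rw [dev_plu]
  simp [dl, Pi.single_apply]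

end Pool.Agent.NIB.H17
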