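import Pool.Agent.Helper82_NIB.Stmts

/-! helper17: module SDEV of squad NIB (MP_0a041d_co). -/

set_option autoImplicit false

open Finset Matrix

namespace Pool.Agent.NIB.H17

theorem sdev (hBern : BernStmt) (hSwt : SwtStmt) (hSmean : SmeanStmt) (hSin1 : Sin1Stmt)
    (hSin2 : Sin2Stmt) (hSva1 : Sva1Stmt) (hSva2 : Sva2Stmt) (hSva3 : Sva3Stmt) : SdevStmt := by
  intro V C _ _ _ _ b de Lam h M lam kap kp hb hM hkp hlam
  obtain ⟨w1, w2, w3, w4, w5, w6, w7, w8⟩ := hSwt V C b de Lam h kap hb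
  obtain ⟨o1, o2⟩ := hSin2 V C b de Lam h kap kp hb
  set F : (Crd V C → Val C) → ℝ := fun ω => ∑ c, dev b.th (b.xo c) (b.sg c ω) (kp c) with hF
  set Q : ℝ := ∑ c, Qf (b.x c) (kp c) with hQ
  have hQ0 : 0 ≤ Q := by
    refine Finset.sum_nonneg fun c _ => ?_
    unfold Qf
    exact Finset.sum_nonneg fun u _ => Finset.sum_nonneg fun v _ =>
      mul_nonneg (hb.x0 c u v) (sq_nonneg _)
  have hth : 0 ≤ b.th := hb.th0.le
  have hEx : Ex b.wt F = 0 := by
    rw [hF, Ex_sum]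
    refine Finset.sum_eq_zero fun c _ => ?_
    unfold dev
    rw [Ex_sum]
    refine Finset.sum_eq_zero fun u _ => ?_
    rw [Ex_sum]
    refine Finset.sum_eq_zero fun v _ => ?_
    rw [Ex_mul, Ex_sub, hSmean V C b de Lam h kap hb c u v, Ex_const w1, sub_self, mul_zero]
  have ha : ∀ i s, 0 ≤ b.ifa kp i s := by
    intro i s
    rcases i with a | p <;> rcases s with _ | ⟨c, t⟩ <;> simp [Bm.ifa]
  have hbb : ∀ i s j t, 0 ≤ b.ifb kp i s j t := by
    intro i s j t
    rcases i with a0 | ⟨c, s0⟩ <;> rcases s with _ | ⟨c1, t1⟩ <;> rcases j with a | p <;>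
      rcases t with _ | ⟨c', t'⟩ <;> try simp [Bm.ifb]
    · cases t' <;> simp [Bm.ifb]
      split_ifs <;> simp
    · cases t' <;> simp [Bm.ifb]
      split_ifs <;> simp
  have hV : ∑ i, ∑ s, b.wt i s * b.ifc kp i s ^ 2 ≤ 20 * b.th * Q := by
    rw [Fintype.sum_sum_type]
    have h1 := hSva1 V C b de Lam h kap kp hb
    have h2 := hSva2 V C b de Lam h kap kp hb
    linarith
  have key := hBern (Crd V C) (Val C) b.wt b.ordI (fun _ => none) F (b.ifa kp) (b.ifb kp)
    (b.ifc kp) (20 * b.th * Q) (2 * M) lam w1 o1 ha hbb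
    (fun i s ω => hSin1 V C b de Lam h kap kp hb i s ω) o2 hV
    (hSva3 V C b de Lam h M kap kp hb hM hkp) (by positivity) hlam
  refine le_trans (Pr_mono w1 ?_) key
  intro ω hω
  simp only [Set.mem_setOf_eq] at hω ⊢
  rw [hEx, sub_zero]
  refine lt_of_le_of_lt ?_ hω
  have h3 : 2 * √(lam * (20 * b.th * Q)) ≤ 9 * √(lam * b.th * Q) := by
    have h4 : lam * (20 * b.th * Q) = 20 * (lam * b.th * Q) := by ring
    have h5 : 0 ≤ lam * b.th * Q := by positivity
    rw [h4, Real.sqrt_mul (by norm_num)]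
    have h6 : √(20 : ℝ) ≤ 9 / 2 := by
      rw [Real.sqrt_le_left (by norm_num)]
      norm_num
    have h7 : 0 ≤ √(lam * b.th * Q) := Real.sqrt_nonneg _
    nlinarith
  linarith

end Pool.Agent.NIB.H17
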