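import Pool.Agent.Helper82_NIB.Stmts

/-! helper17: module SIN2 of squad NIB (MP_0a041d_co). -/

set_option autoImplicit false

open Finset Matrix

namespace Pool.Agent.NIB.H17

theorem sin2 (hSwt : SwtStmt) : Sin2Stmt := by
  intro V C _ _ _ _ b de Lam h kap kp hb
  obtain ⟨w1, w2, w3, w4, w5, w6, w7, w8⟩ := hSwt V C b de Lam h kap hb
  refine ⟨?_, ?_⟩
  · rintro (a | p) (a' | p') hab
    · simp only [Bm.ordI] at hab
      rw [hb.ordInj (by omega : b.ord a = b.ord a')]
    · exfalso
      simp only [Bm.ordI] at hab
      have := (Fintype.equivFin (C × V) p').isLt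
      omega
    · exfalso
      simp only [Bm.ordI] at hab
      have := (Fintype.equivFin (C × V) p).isLt
      omega
    · simp only [Bm.ordI] at hab
      rw [(Fintype.equivFin (C × V)).injective (Fin.ext hab)]
  · have hbb : ∀ i s j t, 0 ≤ b.ifb kp i s j t := by
      intro i s j t
      rcases i with a0 | ⟨c, s0⟩ <;> rcases s with _ | ⟨c1, t1⟩ <;> rcases j with a | p <;>
        rcases t with _ | ⟨c', t'⟩ <;> try simp [Bm.ifb]
      · cases t' <;> simp [Bm.ifb]
        split_ifs <;> simp
      · cases t' <;> simp [Bm.ifb]
        split_ifs <;> simp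
    have hall : ∀ i s, ∑ j with b.ordI i < b.ordI j, ∑ t, b.wt j t * b.ifb kp i s j t ≤
        ∑ j, ∑ t, b.wt j t * b.ifb kp i s j t := by
      intro i s
      refine Finset.sum_le_sum_of_subset_of_nonneg (Finset.filter_subset _ _) fun j _ _ => ?_
      exact Finset.sum_nonneg fun t _ => mul_nonneg (w1.nonneg j t) (hbb i s j t)
    have hle : ∀ c a (K : ℝ), 0 ≤ K → b.wt (.inl a) (some (c, true)) * K ≤ b.q c a * K := by
      intro c a K hK
      refine mul_le_mul_of_nonneg_right ?_ hK
      show b.q c a * b.pac c a ≤ b.q c a
      exact mul_le_of_le_one_right (w2 c a) (w7 c a)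
    intro i s
    rcases s with _ | ⟨c, t0⟩
    · have h1 : b.ifa kp i none = 0 := by rcases i with a | p <;> rfl
      have h2 : b.ifc kp i none = 0 := by rcases i with a | p <;> rfl
      have h3 : ∀ j t, b.ifb kp i none j t = 0 := by
        intro j t
        rcases i with a | p <;> rcases j with a' | p' <;> rfl
      simp [h1, h2, h3]
    · rcases i with a0 | ⟨c1, s0⟩
      · have h1 : b.ifa kp (.inl a0) (some (c, t0)) = |kp c a0.1 a0.2| := rfl
        have h2 : b.ifc kp (.inl a0) (some (c, t0)) =
          |kp c a0.1 a0.2| + ∑ a with a0 ∈ b.blk c a, b.q c a * |kp c a.1 a.2| := rfl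
        rw [h1, h2]
        refine add_le_add_right ((hall _ _).trans ?_) _
        rw [Fintype.sum_sum_type]
        have h3 : ∑ p : C × V, ∑ t, b.wt (.inr p) t *
            b.ifb kp (.inl a0) (some (c, t0)) (.inr p) t = 0 := by
          refine Finset.sum_eq_zero fun p _ => Finset.sum_eq_zero fun t _ => ?_
          have : b.ifb kp (.inl a0) (some (c, t0)) (.inr p) t = 0 := rfl
          rw [this, mul_zero]
        rw [h3, add_zero, Finset.sum_filter]
        refine Finset.sum_le_sum fun a _ => ?_
        have h4 : ∑ t, b.wt (.inl a) t * b.ifb kp (.inl a0) (some (c, t0)) (.inl a) t =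
            b.wt (.inl a) (some (c, true)) *
              b.ifb kp (.inl a0) (some (c, t0)) (.inl a) (some (c, true)) := by
          refine Finset.sum_eq_single _ (fun t _ ht => ?_) (fun h => absurd (mem_univ _) h)
          rcases t with _ | ⟨c', t'⟩
          · have : b.ifb kp (.inl a0) (some (c, t0)) (.inl a) none = 0 := rfl
            rw [this, mul_zero]
          · cases t'
            · have : b.ifb kp (.inl a0) (some (c, t0)) (.inl a) (some (c', false)) = 0 := rfl
              rw [this, mul_zero]
            · have hc : c' ≠ c := fun h => ht (by rw [h])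
              have : b.ifb kp (.inl a0) (some (c, t0)) (.inl a) (some (c', true)) = 0 := by
                simp [Bm.ifb, hc]
              rw [this, mul_zero]
        rw [h4]
        have h5 : b.ifb kp (.inl a0) (some (c, t0)) (.inl a) (some (c, true)) =
            if a0 ∈ b.blk c a then |kp c a.1 a.2| else 0 := by
          simp [Bm.ifb]
        rw [h5]
        split_ifs with h6
        · exact hle c a _ (abs_nonneg _)
        · rw [mul_zero]
      · have h1 : b.ifa kp (.inr (c1, s0)) (some (c, t0)) = 0 := rfl
        have h2 : b.ifc kp (.inr (c1, s0)) (some (c, t0)) =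
          ∑ a with b.x c1 a.1 a.2 ≠ 0 ∧ (b.st c1 a.1 = s0 ∨ a.2 = s0),
            b.q c1 a * |kp c1 a.1 a.2| := rfl
        rw [h1, h2, zero_add]
        refine (hall _ _).trans ?_
        rw [Fintype.sum_sum_type]
        have h3 : ∑ p : C × V, ∑ t, b.wt (.inr p) t *
            b.ifb kp (.inr (c1, s0)) (some (c, t0)) (.inr p) t = 0 := by
          refine Finset.sum_eq_zero fun p _ => Finset.sum_eq_zero fun t _ => ?_
          have : b.ifb kp (.inr (c1, s0)) (some (c, t0)) (.inr p) t = 0 := rfl
          rw [this, mul_zero]
        rw [h3, add_zero, Finset.sum_filter]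
        refine Finset.sum_le_sum fun a _ => ?_
        have h4 : ∑ t, b.wt (.inl a) t * b.ifb kp (.inr (c1, s0)) (some (c, t0)) (.inl a) t =
            b.wt (.inl a) (some (c1, true)) *
              b.ifb kp (.inr (c1, s0)) (some (c, t0)) (.inl a) (some (c1, true)) := by
          refine Finset.sum_eq_single _ (fun t _ ht => ?_) (fun h => absurd (mem_univ _) h)
          rcases t with _ | ⟨c', t'⟩
          · have : b.ifb kp (.inr (c1, s0)) (some (c, t0)) (.inl a) none = 0 := rfl
            rw [this, mul_zero]
          · cases t'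
            · have : b.ifb kp (.inr (c1, s0)) (some (c, t0)) (.inl a) (some (c', false)) = 0 :=
                rfl
              rw [this, mul_zero]
            · have hc : c' ≠ c1 := fun h => ht (by rw [h])
              have : b.ifb kp (.inr (c1, s0)) (some (c, t0)) (.inl a) (some (c', true)) = 0 := by
                simp [Bm.ifb, hc]
              rw [this, mul_zero]
        rw [h4]
        have h5 : b.ifb kp (.inr (c1, s0)) (some (c, t0)) (.inl a) (some (c1, true)) =
            if b.x c1 a.1 a.2 ≠ 0 ∧ (b.st c1 a.1 = s0 ∨ a.2 = s0) then |kp c1 a.1 a.2|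
              else 0 := by
          simp [Bm.ifb]
        rw [h5]
        split_ifs with h6
        · exact hle c1 a _ (abs_nonneg _)
        · rw [mul_zero]

end Pool.Agent.NIB.H17
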