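import Pool.Agent.Helper82_NIB.Stmts

/-! helper17: module SMP2 of squad NIB (MP_0a041d_co). -/

set_option autoImplicit false

open Finset Matrix

namespace Pool.Agent.NIB.H17

theorem smp2 (hInd : IndStmt) (hSmpw : SmpwStmt) : Smp2Stmt := by
  classical
  intro W _ _ A lam' np ta hA hta hlam hnp z
  have hwt := hSmpw W A np ta hA
  set f : W × Fin np × Fin ta → Option W → ℝ := fun _ s => if s = some z then 1 else 0 with hf
  have hf0 : ∀ i s, 0 ≤ f i s := by
    intro i s
    simp only [hf]
    split_ifs <;> norm_num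
  have hf1 : ∀ i s, f i s ≤ 1 := by
    intro i s
    simp only [hf]
    split_ifs <;> norm_num
  have hfs : ∀ i s, f i s ^ 2 = f i s := by
    intro i s
    simp only [hf]
    split_ifs <;> norm_num
  have hm : ∀ i : W × Fin np × Fin ta, ∑ s, swt A np ta i s * f i s =
      (laz A ^ (i.2.2 : ℕ)) i.1 z := by
    rintro ⟨w, i, j⟩
    simp only [hf, mul_ite, mul_one, mul_zero]
    rw [Finset.sum_ite_eq' univ (some z), if_pos (mem_univ _)]
    rfl
  have hmean : ∑ i, ∑ s, swt A np ta i s * f i s ≤ np * ta := by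
    rw [Finset.sum_congr rfl fun i _ => hm i, Fintype.sum_prod_type]
    rw [Finset.sum_comm]
    have h1 : ∀ p : Fin np × Fin ta, ∑ w, (laz A ^ (p.2 : ℕ)) w z ≤ 1 := by
      intro p
      rw [Finset.sum_congr rfl fun w _ => laz_pow_symm hA.symm (p.2 : ℕ) w z]
      exact laz_pow_row hA.nonneg hA.row _ z
    refine (Finset.sum_le_sum fun p _ => h1 p).trans ?_
    simp
  have hmean0 : 0 ≤ ∑ i, ∑ s, swt A np ta i s * f i s :=
    Finset.sum_nonneg fun i _ => Finset.sum_nonneg fun s _ =>
      mul_nonneg (hwt.nonneg i s) (hf0 i s)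
  have key := hInd (W × Fin np × Fin ta) (Option W) (swt A np ta) f (np * ta) 1 lam' hwt hf0 hf1
    zero_le_one (by linarith) (by simpa only [hfs] using hmean)
  refine le_trans (Pr_mono hwt ?_) key
  intro ω hω
  simp only [Set.mem_setOf_eq] at hω ⊢
  have h1 : ∑ w, (cnt ω w z : ℝ) = ∑ i, f i (ω i) := by
    rw [Fintype.sum_prod_type]
    refine Finset.sum_congr rfl fun w _ => ?_
    unfold cnt
    simp only [hf]
    rw [Finset.card_filter]
    push_cast
    rfl
  rw [h1] at hω
  refine lt_of_lt_of_le ?_ (le_abs_self _)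
  have hta' : (1 : ℝ) ≤ ta := by exact_mod_cast hta
  have h3 : √(lam' * (np * ta)) ≤ np * ta / 8 := by
    rw [Real.sqrt_le_left (by positivity)]
    have h4 : 0 ≤ (np : ℝ) * ta := by positivity
    have h5 : lam' ≤ np * ta / 64 := by nlinarith
    nlinarith
  have h6 : lam' ≤ np * ta / 64 := by nlinarith
  linarith

end Pool.Agent.NIB.H17
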