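import Pool.Agent.Helper17_NIB.Rs

/-! helper17: module SO7 of squad NIB (MP_0a041d_co). -/

set_option autoImplicit false

open Finset Matrix

namespace Pool.Agent.NIB.H17

theorem so7 (hSdev : SdevStmt) (hSwt : SwtStmt) : So7Stmt := by
  classical
  intro V C _ _ _ _ b de Lam h lam kap hb hlam w
  have hSw : Pr b.wt {ω | 9 * √(lam * b.th * ∑ c, Qf (b.x c) (plu (dl w))) + 8 * lam * 1 <
      |∑ c, dev b.th (b.xo c) (b.sg c ω) (plu (dl w))|} ≤ 2 * Real.exp (-lam) :=
    hSdev V C b de Lam h 1 lam kap (fun _ => plu (dl w)) hb zero_le_one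
      (fun c u v => plu_dl_abs w u v) hlam
  have hsum : ∑ c, Qf (b.x c) (plu (dl w)) ≤ h := by
    simp only [Qf_plu_dl]
    have h1 : ∑ c, rs (b.x c) w = ∑ c with rs (b.x c) w ≠ 0, rs (b.x c) w := by
      rw [Finset.sum_filter]
      refine Finset.sum_congr rfl fun c _ => ?_
      by_cases h0 : rs (b.x c) w = 0 <;> simp [h0]
    rw [h1]
    have h2 : ∑ c with rs (b.x c) w ≠ 0, rs (b.x c) w ≤
        ((univ.filter fun c => rs (b.x c) w ≠ 0).card : ℝ) := by
      have h3 := Finset.sum_le_card_nsmul (univ.filter fun c => rs (b.x c) w ≠ 0)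
        (fun c => rs (b.x c) w) 1 (fun c _ => hb.row c w)
      simpa using h3
    refine h2.trans ?_
    have h4 := hb.hh w
    rw [← Set.ncard_coe_finset, Finset.coe_filter]
    simpa using h4
  have hset : {ω : Crd V C → Val C | 9 * √(lam * b.th * h) + 8 * lam <
      |∑ c, rs (b.sg c ω) w - b.th * ∑ c, rs (b.xo c) w|} ⊆
      {ω | 9 * √(lam * b.th * ∑ c, Qf (b.x c) (plu (dl w))) + 8 * lam * 1 <
      |∑ c, dev b.th (b.xo c) (b.sg c ω) (plu (dl w))|} := by
    intro ω hω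
    simp only [Set.mem_setOf_eq] at hω ⊢
    have h1 : ∑ c, dev b.th (b.xo c) (b.sg c ω) (plu (dl w)) =
        ∑ c, rs (b.sg c ω) w - b.th * ∑ c, rs (b.xo c) w := by
      simp only [dev_plu_dl]
      rw [Finset.sum_sub_distrib, Finset.mul_sum]
    rw [h1]
    refine lt_of_le_of_lt ?_ hω
    have h2 : √(lam * b.th * ∑ c, Qf (b.x c) (plu (dl w))) ≤ √(lam * b.th * h) :=
      Real.sqrt_le_sqrt (mul_le_mul_of_nonneg_left hsum (mul_nonneg hlam hb.th0.le))
    linarith
  exact (Pr_mono (hSwt V C b de Lam h kap hb).1 hset).trans hSw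

end Pool.Agent.NIB.H17
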