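import Pool.Agent.Helper82_NIB.Stmts

/-! helper17: module SOM of squad NIB (MP_0a041d_co). -/

set_option autoImplicit false

open Finset Matrix

namespace Pool.Agent.NIB.H17

theorem som (hSwt : SwtStmt) : SomStmt := by
  intro V C _ _ _ _ b de Lam h kap hb c u v
  obtain ⟨w1, w2, w3, w4, w5, w6, w7, w8⟩ := hSwt V C b de Lam h kap hb
  have hth0 := hb.th0
  have hq := w3 c (u, v)
  have hq0 := w2 c (u, v)
  set o : ℝ := ∑ c' ∈ univ.erase c, b.q c' (u, v) with ho
  have ho0 : 0 ≤ o := Finset.sum_nonneg fun c' _ => w2 c' (u, v)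
  have hole : o ≤ ∑ c', b.q c' (u, v) :=
    Finset.sum_le_sum_of_subset_of_nonneg (Finset.erase_subset _ _) fun c' _ _ => w2 c' (u, v)
  have h1 : o ≤ 1 / 100 := hole.trans (w4 (u, v))
  have h2 : o ≤ 8 * b.th * Lam := by
    refine hole.trans ?_
    unfold Bm.q
    rw [← Finset.mul_sum]
    exact mul_le_mul_of_nonneg_left (hb.lam u v) (by positivity)
  have hpos : 0 < 1 - b.q c (u, v) := by linarith
  have hom : b.om c u v = 1 - o / (1 - b.q c (u, v)) := rfl
  have h3 : 0 ≤ o / (1 - b.q c (u, v)) := div_nonneg ho0 hpos.le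
  have h4 : o / (1 - b.q c (u, v)) ≤ 25 / 24 * o := by
    rw [div_le_iff₀ hpos]
    nlinarith
  rw [hom]
  refine ⟨by linarith, by linarith, ?_⟩
  linarith

end Pool.Agent.NIB.H17
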