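import Pool.Agent.Helper17_NIB.Rs

/-! helper17: module SOWN of squad NIB (MP_0a041d_co). -/

set_option autoImplicit false

open Finset Matrix

namespace Pool.Agent.NIB.H17

lemma colOf_some {C : Type} (c c' : C) (t : Bool) : colOf (some (c', t)) c ↔ c' = c := by
  constructor
  · rintro ⟨b, hb⟩
    have := Option.some.inj hb
    exact congrArg Prod.fst this
  · rintro rfl
    exact ⟨t, rfl⟩

lemma colOf_none {C : Type} (c : C) : ¬ colOf (none : Val C) c := by
  rintro ⟨b, hb⟩
  exact absurd hb (by simp)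

open Classical in
lemma sum_wt_col {V C : Type} [Fintype V] [DecidableEq V] [Fintype C] [DecidableEq C]
    (b : Bm V C) (a : V × V) (c : C) :
    ∑ s, b.wt (.inl a) s * (if colOf s c then (1 : ℝ) else 0) = b.q c a := by
  rw [Fintype.sum_option, Fintype.sum_prod_type]
  have h0 : (if colOf (none : Val C) c then (1 : ℝ) else 0) = 0 := if_neg (colOf_none c)
  rw [h0, mul_zero, zero_add]
  rw [Finset.sum_eq_single c]
  · rw [Fintype.sum_bool]
    rw [if_pos ((colOf_some c c true).2 rfl), if_pos ((colOf_some c c false).2 rfl)]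
    show b.q c a * b.pac c a * 1 + b.q c a * (1 - b.pac c a) * 1 = b.q c a
    ring
  · intro c' _ hc'
    refine Finset.sum_eq_zero fun t _ => ?_
    rw [if_neg (fun h => hc' ((colOf_some c c' t).1 h)), mul_zero]
  · intro h
    exact absurd (mem_univ _) h

open Classical in
theorem sown (hInd : IndStmt) (hSwt : SwtStmt) : SownStmt := by
  intro V C _ _ _ _ b de Lam h lam kap hb hlam c w
  obtain ⟨w1, w2, w3, w4, w5, w6, w7, w8⟩ := hSwt V C b de Lam h kap hb
  set f : Crd V C → Val C → ℝ := fun i s => match i with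
    | .inl a => plu (dl w) a.1 a.2 * (if colOf s c then (1 : ℝ) else 0)
    | .inr _ => 0 with hf
  have hf0 : ∀ i s, 0 ≤ f i s := by
    rintro (a | p) s
    · simp only [hf]
      exact mul_nonneg (plu_dl_nonneg w _ _) (by split_ifs <;> norm_num)
    · simp only [hf]; exact le_refl 0
  have hf1 : ∀ i s, f i s ≤ 1 := by
    rintro (a | p) s
    · simp only [hf]
      rcases plu_dl_cases w a.1 a.2 with h1 | h1 <;> rw [h1] <;> split_ifs <;> norm_num
    · simp only [hf]; exact zero_le_one
  have hfs : ∀ i s, f i s ^ 2 = f i s := by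
    rintro (a | p) s
    · simp only [hf]
      rcases plu_dl_cases w a.1 a.2 with h1 | h1 <;> rw [h1] <;> split_ifs <;> norm_num
    · simp only [hf]; norm_num
  have hmean : ∑ i, ∑ s, b.wt i s * f i s ≤ 1 / 25 := by
    rw [Fintype.sum_sum_type]
    have h1 : ∑ p : C × V, ∑ s, b.wt (.inr p) s * f (.inr p) s = 0 := by
      refine Finset.sum_eq_zero fun p _ => Finset.sum_eq_zero fun s _ => ?_
      simp only [hf, mul_zero]
    have h2 : ∀ a : V × V, ∑ s, b.wt (.inl a) s * f (.inl a) s =
        plu (dl w) a.1 a.2 * b.q c a := by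
      intro a
      rw [← sum_wt_col b a c, Finset.mul_sum]
      refine Finset.sum_congr rfl fun s _ => ?_
      simp only [hf]
      ring
    rw [h1, add_zero, Finset.sum_congr rfl (fun a _ => h2 a), Fintype.sum_prod_type]
    have h3 := rs_eq_sum (fun u v => b.q c (u, v)) w
    have h4 := w8 c w
    have h5 : ∑ w', mat (fun u v => b.q c (u, v)) w w' = rs (fun u v => b.q c (u, v)) w := rfl
    rw [h5, h3] at h4
    have h6 := hb.th1
    refine h4.trans ?_
    linarith
  have hmean0 : 0 ≤ ∑ i, ∑ s, b.wt i s * f i s :=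
    Finset.sum_nonneg fun i _ => Finset.sum_nonneg fun s _ => mul_nonneg (w1.nonneg i s) (hf0 i s)
  have key := hInd (Crd V C) (Val C) b.wt f (1 / 25) 1 lam w1 hf0 hf1 zero_le_one (by linarith)
    (by simpa only [hfs] using hmean)
  refine le_trans (Pr_mono w1 ?_) key
  intro ω hω
  simp only [Set.mem_setOf_eq] at hω ⊢
  have h1 : rs (fun u v => if colOf (ω (.inl (u, v))) c then (1 : ℝ) else 0) w =
      ∑ i, f i (ω i) := by
    rw [rs_eq_sum, Fintype.sum_sum_type]
    have h2 : ∑ p : C × V, f (.inr p) (ω (.inr p)) = 0 :=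
      Finset.sum_eq_zero fun p _ => rfl
    rw [h2, add_zero, Fintype.sum_prod_type]
  rw [h1] at hω
  refine lt_of_lt_of_le ?_ (le_abs_self _)
  have h3 : √(lam * (1 / 25)) ≤ lam / 5 := by
    rw [Real.sqrt_le_left (by linarith)]
    nlinarith
  linarith

end Pool.Agent.NIB.H17
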