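import Pool.Agent.Helper17_NIB.Rs

/-! helper17: module SWT of squad NIB (MP_0a041d_co). -/

set_option autoImplicit false

open Finset Matrix

namespace Pool.Agent.NIB.H17

lemma one_sub_sum_le_prod {ι : Type*} [DecidableEq ι] (s : Finset ι) (f : ι → ℝ)
    (h0 : ∀ i ∈ s, 0 ≤ f i) (h1 : ∀ i ∈ s, f i ≤ 1) :
    1 - ∑ i ∈ s, f i ≤ ∏ i ∈ s, (1 - f i) ∧ 0 ≤ ∏ i ∈ s, (1 - f i) ∧
      ∏ i ∈ s, (1 - f i) ≤ 1 := by
  induction s using Finset.induction_on with
  | empty => simp
  | insert a s ha ih =>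
    obtain ⟨i1, i2, i3⟩ := ih (fun i hi => h0 i (Finset.mem_insert_of_mem hi))
      (fun i hi => h1 i (Finset.mem_insert_of_mem hi))
    have a0 := h0 a (Finset.mem_insert_self a s)
    have a1 := h1 a (Finset.mem_insert_self a s)
    rw [Finset.sum_insert ha, Finset.prod_insert ha]
    refine ⟨?_, mul_nonneg (by linarith) i2, ?_⟩
    · nlinarith
    · nlinarith

theorem swt : SwtStmt := by
  classical
  intro V C _ _ _ _ b de Lam h kap hb
  have hth0 := hb.th0
  have hth1 := hb.th1
  have hxle : ∀ c u v, b.x c u v ≤ 1 := by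
    intro c u v
    have h1 : mat (b.x c) (u, true) (v, false) ≤ rs (b.x c) (u, true) :=
      Finset.single_le_sum (f := fun w' => mat (b.x c) (u, true) w')
        (fun w' _ => mat_nonneg (hb.x0 c) _ _) (mem_univ _)
    rw [mat_tf] at h1
    exact h1.trans (hb.row c _)
  have hq0 : ∀ c a, 0 ≤ b.q c a := by
    intro c a
    unfold Bm.q
    have := hb.x0 c a.1 a.2
    positivity
  have hq1 : ∀ c a, b.q c a ≤ 1 / 25 := by
    intro c a
    unfold Bm.q
    have h1 := hxle c a.1 a.2
    have h0 := hb.x0 c a.1 a.2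
    nlinarith
  have hqs : ∀ a, ∑ c, b.q c a ≤ 1 / 100 := by
    intro a
    unfold Bm.q
    rw [← Finset.mul_sum]
    have h1 := hb.lam a.1 a.2
    have h2 := hb.thLam
    nlinarith
  have hrow : ∀ c w, ∑ w', mat (fun u v => b.q c (u, v)) w w' ≤ 8 * b.th := by
    intro c w
    have h1 : ∀ w', mat (fun u v => b.q c (u, v)) w w' = 8 * b.th * mat (b.x c) w w' := by
      intro w'
      rcases w with ⟨w, _ | _⟩ <;> rcases w' with ⟨w', _ | _⟩ <;> simp [Bm.q]
    simp only [h1]
    rw [← Finset.mul_sum]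
    have h2 := hb.row c w
    unfold rs at h2
    nlinarith
  have hblk : ∀ c a, 1 / 2 ≤ ∏ a' ∈ b.blk c a, (1 - b.q c a') := by
    intro c a
    obtain ⟨p1, -, -⟩ := one_sub_sum_le_prod (b.blk c a) (fun a' => b.q c a')
      (fun i _ => hq0 c i) (fun i _ => by linarith [hq1 c i])
    have h1 : ∑ a' ∈ b.blk c a, b.q c a' ≤ 16 * b.th := by
      have h2 : b.blk c a ⊆ (univ.image fun v => (a.1, v)) ∪ (univ.image fun u => (u, a.2)) := by
        intro a' ha'
        unfold Bm.blk at ha'
        rw [Finset.mem_filter] at ha'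
        rcases ha'.2.2.1 with h3 | h3
        · refine Finset.mem_union_left _ (Finset.mem_image.2 ⟨a'.2, mem_univ _, ?_⟩)
          rw [← h3]
        · refine Finset.mem_union_right _ (Finset.mem_image.2 ⟨a'.1, mem_univ _, ?_⟩)
          rw [← h3]
      refine (Finset.sum_le_sum_of_subset_of_nonneg h2 fun i _ _ => hq0 c i).trans ?_
      refine (Finset.sum_union_inter (f := fun i => b.q c i) ▸
        (le_add_of_nonneg_right (Finset.sum_nonneg fun i _ => hq0 c i) :
          ∑ i ∈ _ ∪ _, b.q c i ≤ ∑ i ∈ _ ∪ _, b.q c i + ∑ i ∈ _ ∩ _, b.q c i)).trans ?_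
      rw [Finset.sum_image (fun x _ y _ hxy => congrArg Prod.snd hxy),
        Finset.sum_image (fun x _ y _ hxy => congrArg Prod.fst hxy)]
      have h3 := hrow c (a.1, true)
      have h4 := hrow c (a.2, false)
      rw [sum_node] at h3 h4
      simp only [mat_tt, mat_tf, mat_ft, mat_ff, Finset.sum_const_zero, zero_add, add_zero]
        at h3 h4
      linarith
    linarith
  have hpac0 : ∀ c a, 0 ≤ b.pac c a := by
    intro c a
    unfold Bm.pac
    have := hblk c a
    positivity
  have hpac1 : ∀ c a, b.pac c a ≤ 1 := by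
    intro c a
    unfold Bm.pac
    have := hblk c a
    rw [div_le_one (by linarith)]
    linarith
  refine ⟨⟨?_, ?_⟩, hq0, hq1, hqs, hblk, hpac0, hpac1, hrow⟩
  · rintro (a | ⟨c, p⟩) (_ | ⟨c', _ | _⟩)
    · show 0 ≤ 1 - ∑ c, b.q c a
      linarith [hqs a]
    · show 0 ≤ b.q c' a * (1 - b.pac c' a)
      exact mul_nonneg (hq0 _ _) (by linarith [hpac1 c' a])
    · show 0 ≤ b.q c' a * b.pac c' a
      exact mul_nonneg (hq0 _ _) (hpac0 _ _)
    · show (0 : ℝ) ≤ 1 / 2
      norm_num
    · show (0 : ℝ) ≤ if c' = c ∧ false = true then 1 / 2 else 0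
      split_ifs <;> norm_num
    · show (0 : ℝ) ≤ if c' = c ∧ true = true then 1 / 2 else 0
      split_ifs <;> norm_num
  · rintro (a | ⟨c, p⟩)
    · rw [Fintype.sum_option, Fintype.sum_prod_type]
      have h1 : ∀ c, ∑ t : Bool, b.wt (.inl a) (some (c, t)) = b.q c a := by
        intro c
        rw [Fintype.sum_bool]
        show b.q c a * b.pac c a + b.q c a * (1 - b.pac c a) = b.q c a
        ring
      rw [Finset.sum_congr rfl fun c _ => h1 c]
      show 1 - ∑ c, b.q c a + ∑ c, b.q c a = 1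
      ring
    · rw [Fintype.sum_option, Fintype.sum_prod_type]
      have h1 : ∀ c', ∑ t : Bool, b.wt (.inr (c, p)) (some (c', t)) =
          if c' = c then 1 / 2 else 0 := by
        intro c'
        rw [Fintype.sum_bool]
        show (if c' = c ∧ true = true then (1 : ℝ) / 2 else 0) +
          (if c' = c ∧ false = true then (1 : ℝ) / 2 else 0) = _
        by_cases hc : c' = c <;> simp [hc]
      rw [Finset.sum_congr rfl fun c _ => h1 c, Finset.sum_ite_eq' univ c, if_pos (mem_univ _)]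
      show (1 : ℝ) / 2 + 1 / 2 = 1
      norm_num

end Pool.Agent.NIB.H17
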